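import Pool.Agent.H54.WB.TargetsB

/-! MP_64fb07_lc, wdb_modules, row WG2: from derivations to normal forms. -/

set_option autoImplicit false

namespace Pool.Agent.H35.WB

open Pool.Agent.H54.WB Pool.Agent.H8.VR Pool.Agent.H69.VR

/-- a normal form of the structure on a set, with colours -/
structure NF {V : Type} (W : Width) (k : ℕ) (E : V → V → Prop) (X : Set V) (c : V → Co k) (l : ℕ)
    (anc : V → V → Prop) (po : V → ℕ) : Prop where
  inX : ∀ u v, anc u v → u ∈ X ∧ v ∈ X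
  irr : ∀ v, ¬ anc v v
  trans : ∀ u v w, anc u v → anc v w → anc u w
  chain : ∀ u v w, anc u w → anc v w → u = v ∨ anc u v ∨ anc v u
  lin : W.lin = true → ∀ u ∈ X, ∀ v ∈ X, u = v ∨ anc u v ∨ anc v u
  lt : ∀ v ∈ X, po v < k
  lev : W.lev = true → (∀ u v, anc u v → po u < po v) ∧ ∀ v ∈ X, l ≤ po v
  cmp : ∀ u ∈ X, ∀ v ∈ X, E u v → anc u v ∨ anc v u
  sep : ∀ u v w, anc u v → (w = v ∨ anc v w) → E u w → po u ≠ po v
  col : ∀ v ∈ X, ∀ w ∈ X, (w = v ∨ anc v w) → ∀ i : Fin k, i.val = po v → c w i = false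

section
variable {V : Type} {W : Width} {k : ℕ} {E : V → V → Prop}

theorem nf_pt {a : V} {c : V → Co k} {l : ℕ} {i : Fin k} (hi : c a i = false)
    (hl : W.lev = true → l ≤ i.val) (hE : ¬ E a a) :
    NF W k E {a} c l (fun _ _ => False) (fun _ => i.val) where
  inX := fun _ _ h => h.elim
  irr := fun _ h => h
  trans := fun _ _ _ h => h.elim
  chain := fun _ _ _ h => h.elim
  lin := fun _ u hu v hv => Or.inl (hu.trans hv.symm)
  lt := fun _ _ => i.2
  lev := fun h => ⟨fun _ _ h' => h'.elim, fun _ _ => hl h⟩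
  cmp := fun u hu v hv h => by
    rw [Set.mem_singleton_iff.1 hu, Set.mem_singleton_iff.1 hv] at h
    exact absurd h hE
  sep := fun _ _ _ h => h.elim
  col := fun v hv w hw _ j hj => by
    rw [Set.mem_singleton_iff.1 hw, Fin.ext hj]
    exact hi

theorem nf_union {X Y : Set V} {c c₁ c₂ : V → Co k} {l : ℕ} {anc₁ anc₂ : V → V → Prop}
    {po₁ po₂ : V → ℕ} (hW : W.lin = false) (hd : Disjoint X Y) (h1 : NF W k E X c₁ l anc₁ po₁)
    (h2 : NF W k E Y c₂ l anc₂ po₂) (hE : ∀ a ∈ X, ∀ b ∈ Y, ¬ E a b ∧ ¬ E b a)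
    (hX : ∀ a ∈ X, c a = c₁ a) (hY : ∀ b ∈ Y, c b = c₂ b) :
    ∃ anc po, NF W k E (X ∪ Y) c l anc po := by
  classical
  have hn : ∀ v, v ∈ X → v ∈ Y → False := fun v h h' => Set.disjoint_left.1 hd h h'
  obtain ⟨po, hpo⟩ : ∃ po : V → ℕ, po = fun v => if v ∈ X then po₁ v else po₂ v := ⟨_, rfl⟩
  have p1 : ∀ v ∈ X, po v = po₁ v := fun v hv => by rw [hpo]; exact if_pos hv
  have p2 : ∀ v ∈ Y, po v = po₂ v := fun v hv => by rw [hpo]; exact if_neg fun h => hn v h hv
  refine ⟨fun u v => anc₁ u v ∨ anc₂ u v, po, ?_, ?_, ?_, ?_, ?_, ?_, ?_, ?_, ?_, ?_⟩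
  · rintro u v (h | h)
    · exact ⟨Or.inl (h1.inX _ _ h).1, Or.inl (h1.inX _ _ h).2⟩
    · exact ⟨Or.inr (h2.inX _ _ h).1, Or.inr (h2.inX _ _ h).2⟩
  · rintro v (h | h)
    · exact h1.irr v h
    · exact h2.irr v h
  · rintro u v w (h | h) (h' | h')
    · exact Or.inl (h1.trans _ _ _ h h')
    · exact (hn v (h1.inX _ _ h).2 (h2.inX _ _ h').1).elim
    · exact (hn v (h1.inX _ _ h').1 (h2.inX _ _ h).2).elim
    · exact Or.inr (h2.trans _ _ _ h h')
  · rintro u v w (h | h) (h' | h')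
    · rcases h1.chain _ _ _ h h' with e | e | e
      · exact Or.inl e
      · exact Or.inr (Or.inl (Or.inl e))
      · exact Or.inr (Or.inr (Or.inl e))
    · exact (hn w (h1.inX _ _ h).2 (h2.inX _ _ h').2).elim
    · exact (hn w (h1.inX _ _ h').2 (h2.inX _ _ h).2).elim
    · rcases h2.chain _ _ _ h h' with e | e | e
      · exact Or.inl e
      · exact Or.inr (Or.inl (Or.inr e))
      · exact Or.inr (Or.inr (Or.inr e))
  · intro h
    rw [hW] at h
    exact absurd h (by decide)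
  · rintro v (hv | hv)
    · rw [p1 v hv]
      exact h1.lt v hv
    · rw [p2 v hv]
      exact h2.lt v hv
  · intro hl
    refine ⟨?_, ?_⟩
    · rintro u v (h | h)
      · rw [p1 u (h1.inX _ _ h).1, p1 v (h1.inX _ _ h).2]
        exact (h1.lev hl).1 u v h
      · rw [p2 u (h2.inX _ _ h).1, p2 v (h2.inX _ _ h).2]
        exact (h2.lev hl).1 u v h
    · rintro v (hv | hv)
      · rw [p1 v hv]
        exact (h1.lev hl).2 v hv
      · rw [p2 v hv]
        exact (h2.lev hl).2 v hv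
  · rintro u (hu | hu) v (hv | hv) h
    · rcases h1.cmp u hu v hv h with e | e
      · exact Or.inl (Or.inl e)
      · exact Or.inr (Or.inl e)
    · exact absurd h (hE u hu v hv).1
    · exact absurd h (hE v hv u hu).2
    · rcases h2.cmp u hu v hv h with e | e
      · exact Or.inl (Or.inr e)
      · exact Or.inr (Or.inr e)
  · rintro u v w (h | h) hw hE'
    · obtain ⟨hu, hv⟩ := h1.inX _ _ h
      rw [p1 u hu, p1 v hv]
      refine h1.sep u v w h ?_ hE'
      rcases hw with e | e | e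
      · exact Or.inl e
      · exact Or.inr e
      · exact (hn v hv (h2.inX _ _ e).1).elim
    · obtain ⟨hu, hv⟩ := h2.inX _ _ h
      rw [p2 u hu, p2 v hv]
      refine h2.sep u v w h ?_ hE'
      rcases hw with e | e | e
      · exact Or.inl e
      · exact (hn v (h1.inX _ _ e).1 hv).elim
      · exact Or.inr e
  · rintro v (hv | hv) w - hw i hi
    · rw [p1 v hv] at hi
      rcases hw with e | e | e
      · rw [e, hX v hv]
        exact h1.col v hv v hv (Or.inl rfl) i hi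
      · have hwX := (h1.inX _ _ e).2
        rw [hX w hwX]
        exact h1.col v hv w hwX (Or.inr e) i hi
      · exact (hn v hv (h2.inX _ _ e).1).elim
    · rw [p2 v hv] at hi
      rcases hw with e | e | e
      · rw [e, hY v hv]
        exact h2.col v hv v hv (Or.inl rfl) i hi
      · exact (hn v (h1.inX _ _ e).1 hv).elim
      · have hwY := (h2.inX _ _ e).2
        rw [hY w hwY]
        exact h2.col v hv w hwY (Or.inr e) i hi

theorem nf_root {Y : Set V} {r : V} {c c₁ c₂ : V → Co k} {l l' : ℕ} {anc₂ : V → V → Prop}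
    {po₂ : V → ℕ} {i : Fin k} (hr : r ∉ Y) (hi : c₁ r i = false)
    (h2 : NF W k E Y c₂ l' anc₂ po₂) (hlev : W.lev = true → l ≤ i.val ∧ l' = i.val + 1)
    (hE : ∀ b ∈ Y, E r b → c₂ b i = true) (hEr : ¬ E r r) (hX : c r = c₁ r)
    (hY : ∀ b ∈ Y, c b = fun j => if j = i then false else c₂ b j) :
    ∃ anc po, NF W k E ({r} ∪ Y) c l anc po := by
  classical
  have hn : ∀ v, v = r → v ∈ Y → False := fun v h h' => hr (h ▸ h')
  obtain ⟨po, hpo⟩ : ∃ po : V → ℕ, po = fun v => if v = r then i.val else po₂ v := ⟨_, rfl⟩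
  have p1 : po r = i.val := by rw [hpo]; exact if_pos rfl
  have p2 : ∀ v ∈ Y, po v = po₂ v := fun v hv => by rw [hpo]; exact if_neg fun h => hn v h hv
  refine ⟨fun u v => (u = r ∧ v ∈ Y) ∨ anc₂ u v, po, ?_, ?_, ?_, ?_, ?_, ?_, ?_, ?_, ?_, ?_⟩
  · rintro u v (⟨h, h'⟩ | h)
    · exact ⟨Or.inl h, Or.inr h'⟩
    · exact ⟨Or.inr (h2.inX _ _ h).1, Or.inr (h2.inX _ _ h).2⟩
  · rintro v (⟨h, h'⟩ | h)
    · exact hn v h h'
    · exact h2.irr v h
  · rintro u v w (⟨h, h'⟩ | h) (⟨e, e'⟩ | e)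
    · exact (hn v e h').elim
    · exact Or.inl ⟨h, (h2.inX _ _ e).2⟩
    · exact (hn v e (h2.inX _ _ h).2).elim
    · exact Or.inr (h2.trans _ _ _ h e)
  · rintro u v w (⟨h, h'⟩ | h) (⟨e, e'⟩ | e)
    · exact Or.inl (h.trans e.symm)
    · exact Or.inr (Or.inl (Or.inl ⟨h, (h2.inX _ _ e).1⟩))
    · exact Or.inr (Or.inr (Or.inl ⟨e, (h2.inX _ _ h).1⟩))
    · rcases h2.chain _ _ _ h e with t | t | t
      · exact Or.inl t
      · exact Or.inr (Or.inl (Or.inr t))
      · exact Or.inr (Or.inr (Or.inr t))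
  · rintro hW u (hu | hu) v (hv | hv)
    · exact Or.inl (hu.trans hv.symm)
    · exact Or.inr (Or.inl (Or.inl ⟨hu, hv⟩))
    · exact Or.inr (Or.inr (Or.inl ⟨hv, hu⟩))
    · rcases h2.lin hW u hu v hv with t | t | t
      · exact Or.inl t
      · exact Or.inr (Or.inl (Or.inr t))
      · exact Or.inr (Or.inr (Or.inr t))
  · rintro v (hv | hv)
    · rw [Set.mem_singleton_iff.1 hv, p1]
      exact i.2
    · rw [p2 v hv]
      exact h2.lt v hv
  · intro hl
    obtain ⟨e1, e2⟩ := hlev hl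
    obtain ⟨g1, g2⟩ := h2.lev hl
    refine ⟨?_, ?_⟩
    · rintro u v (⟨h, h'⟩ | h)
      · rw [h, p1, p2 v h']
        have := g2 v h'
        omega
      · rw [p2 u (h2.inX _ _ h).1, p2 v (h2.inX _ _ h).2]
        exact g1 u v h
    · rintro v (hv | hv)
      · rw [Set.mem_singleton_iff.1 hv, p1]
        exact e1
      · rw [p2 v hv]
        have := g2 v hv
        omega
  · rintro u (hu | hu) v (hv | hv) h
    · rw [Set.mem_singleton_iff.1 hu, Set.mem_singleton_iff.1 hv] at h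
      exact absurd h hEr
    · exact Or.inl (Or.inl ⟨hu, hv⟩)
    · exact Or.inr (Or.inl ⟨hv, hu⟩)
    · rcases h2.cmp u hu v hv h with e | e
      · exact Or.inl (Or.inr e)
      · exact Or.inr (Or.inr e)
  · rintro u v w (⟨h, h'⟩ | h) hw hE'
    · rw [h, p1, p2 v h']
      intro hpv
      rw [h] at hE'
      rcases hw with e | ⟨e, e'⟩ | e
      · rw [e] at hE'
        have h3 := hE v h' hE'
        rw [h2.col v h' v h' (Or.inl rfl) i hpv] at h3
        exact absurd h3 (by decide)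
      · exact hn v e h'
      · have hwY := (h2.inX _ _ e).2
        have h3 := hE w hwY hE'
        rw [h2.col v h' w hwY (Or.inr e) i hpv] at h3
        exact absurd h3 (by decide)
    · obtain ⟨hu, hv⟩ := h2.inX _ _ h
      rw [p2 u hu, p2 v hv]
      refine h2.sep u v w h ?_ hE'
      rcases hw with e | ⟨e, e'⟩ | e
      · exact Or.inl e
      · exact (hn v e hv).elim
      · exact Or.inr e
  · rintro v (hv | hv) w hwX hw j hj
    · rw [Set.mem_singleton_iff.1 hv, p1] at hj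
      have hji : j = i := Fin.ext hj
      rw [hji]
      rcases hwX with h | h
      · rw [Set.mem_singleton_iff.1 h, hX]
        exact hi
      · rw [hY w h]
        exact if_pos rfl
    · rw [p2 v hv] at hj
      have h3 : w ∈ Y ∧ c₂ w j = false := by
        rcases hw with e | ⟨e, e'⟩ | e
        · rw [e]
          exact ⟨hv, h2.col v hv v hv (Or.inl rfl) j hj⟩
        · exact (hn v e hv).elim
        · have hwY := (h2.inX _ _ e).2
          exact ⟨hwY, h2.col v hv w hwY (Or.inr e) j hj⟩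
      rw [hY w h3.1]
      show (if j = i then false else c₂ w j) = false
      rw [h3.2]
      exact ite_self _

/-- the invariant -/
def Inv (W : Width) (E : V → V → Prop) : So k → Set V → (V → Co k) → Prop
  | .inl l, X, c => ∃ anc po, NF W k E X c l.val anc po
  | .inr i, X, c => ∃ a, X = {a} ∧ c a i = false

theorem inv_gen {m : ℕ} {H : Gram (So k) (Co k)} (hm : 0 < m) (hH : IsGW W k m H)
    {P : ℕ → V → Prop} {R : ℕ → V → V → Prop} {s : So k} {X : Set V} {c : V → Co k}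
    (h : H.Gen m P R s X c) :
    (∀ a ∈ X, ∀ b ∈ X, R 0 a b → R 0 b a) ∧ (∀ a ∈ X, ¬ R 0 a a) ∧ Inv W (R 0) s X c := by
  induction h with
  | pt x hx a c hc hP hR =>
    obtain ⟨h1, h2⟩ := hH.pts' x hx
    have h3 : ¬ R 0 a a := fun h => h1 0 ((hR 0 hm).1 h)
    obtain ⟨i, hi, h4⟩ := (hH.pts x h1 h2).1 hx
    have h5 : c a i = false := by rw [hc]; exact hi
    refine ⟨?_, ?_, ?_⟩
    · intro u hu v hv h
      rw [Set.mem_singleton_iff.1 hu, Set.mem_singleton_iff.1 hv] at h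
      exact absurd h h3
    · intro u hu h
      rw [Set.mem_singleton_iff.1 hu] at h
      exact h3 h
    · rcases h4 with h4 | ⟨l, h4, h6, -⟩
      · rw [h4]
        exact ⟨a, rfl, h5⟩
      · rw [h4]
        exact ⟨_, _, nf_pt h5 h6 h3⟩
  | op o ho X Y c c₁ c₂ h₁ h₂ hd hD hR hX hY ih1 ih2 =>
    obtain ⟨s1, n1, i1⟩ := ih1
    obtain ⟨s2, n2, i2⟩ := ih2
    rcases ((hH.ops o).1 ho).2 with ⟨hW, ⟨l, e1, e2, e3⟩, e4, e5, e6, e7⟩ |
      ⟨i, l, l', e1, e2, e3, e8, -, e4, e5, e6, e7⟩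
    · rw [e1] at i1
      rw [e2] at i2
      obtain ⟨anc₁, po₁, g1⟩ := i1
      obtain ⟨anc₂, po₂, g2⟩ := i2
      have hE : ∀ a ∈ X, ∀ b ∈ Y, ¬ R 0 a b ∧ ¬ R 0 b a := by
        intro a ha b hb
        obtain ⟨t1, t2⟩ := hR a ha b hb 0 hm
        rw [e4] at t1
        rw [e5] at t2
        exact ⟨fun h => t1.1 h, fun h => t2.1 h⟩
      refine ⟨?_, ?_, ?_⟩
      · rintro a (ha | ha) b (hb | hb) h
        · exact s1 a ha b hb h
        · exact absurd h (hE a ha b hb).1
        · exact absurd h (hE b hb a ha).2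
        · exact s2 a ha b hb h
      · rintro a (ha | ha)
        · exact n1 a ha
        · exact n2 a ha
      · rw [e3]
        exact nf_union hW hd g1 g2 hE (fun a ha => by rw [hX a ha, e6]; rfl)
          (fun b hb => by rw [hY b hb, e7]; rfl)
    · rw [e1] at i1
      rw [e2] at i2
      obtain ⟨r, hXr, hri⟩ := i1
      obtain ⟨anc₂, po₂, g2⟩ := i2
      subst hXr
      have hrY : r ∉ Y := fun h => Set.disjoint_left.1 hd rfl h
      have hE : ∀ b ∈ Y, (R 0 r b ↔ c₂ b i = true) ∧ (R 0 b r ↔ c₂ b i = true) := by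
        intro b hb
        obtain ⟨t1, t2⟩ := hR r rfl b hb 0 hm
        rw [e4] at t1
        rw [e5] at t2
        exact ⟨⟨fun h => (t1.1 h).2, fun h => t1.2 ⟨rfl, h⟩⟩,
          ⟨fun h => (t2.1 h).2, fun h => t2.2 ⟨rfl, h⟩⟩⟩
      refine ⟨?_, ?_, ?_⟩
      · rintro a (ha | ha) b (hb | hb) h
        · exact s1 a ha b hb h
        · rw [Set.mem_singleton_iff.1 ha] at h ⊢
          exact (hE b hb).2.2 ((hE b hb).1.1 h)
        · rw [Set.mem_singleton_iff.1 hb] at h ⊢
          exact (hE a ha).1.2 ((hE a ha).2.1 h)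
        · exact s2 a ha b hb h
      · rintro a (ha | ha)
        · exact n1 a ha
        · exact n2 a ha
      · rw [e3]
        refine nf_root hrY hri g2 (fun h => e8 h) (fun b hb => (hE b hb).1.1) (n1 r rfl) ?_ ?_
        · rw [hX r rfl, e6]
          rfl
        · intro b hb
          rw [hY b hb, e7]

end

theorem pf_WG2 : T_WG2 := by
  intro W k m H hm hH V _ _ P R c h
  obtain ⟨h1, h2, anc, po, g⟩ := inv_gen hm hH h
  have hu : ∀ v : V, v ∈ (Set.univ : Set V) := fun v => Set.mem_univ v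
  exact ⟨fun a b => h1 a (hu a) b (hu b), fun a => h2 a (hu a), anc, po,
    ⟨⟨g.irr, g.trans, g.chain⟩, fun hl u v => g.lin hl u (hu u) v (hu v), fun v => g.lt v (hu v),
      fun hl => (g.lev hl).1, fun u v => g.cmp u (hu u) v (hu v), g.sep⟩⟩

end Pool.Agent.H35.WB
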